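import Mathlib
import Pool.Agent.Lib.helper32.Ufe

set_option autoImplicit false

namespace Pool.Agent.Results.MP_b27926_lc.Minimal

open Pool.Agent.Lib.helper32.Ufe

/-- `F ≠ 1` is `ρ`-minimal. -/
def IsMin (ρ : Ultrafilter ℕ+ → Ultrafilter ℕ+ → Prop) (F : Ultrafilter ℕ+) : Prop :=
  F ≠ pure 1 ∧ ∀ G, ρ G F → G = pure 1 ∨ (ρ G F ∧ ρ F G)

/-- An M-minimal ultrafilter that is not minimal for finite embeddability. -/
theorem result : ∃ F G : Ultrafilter ℕ+, IsMin DivM F ∧ G ≠ pure 1 ∧ UFE G F ∧ ¬ UFE F G :=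
  ⟨G, F, ⟨G_ne, fun _ h => (div_G h).imp_right fun e => ⟨h, by subst e; exact h⟩⟩, F_ne, FG, not_GF⟩

end Pool.Agent.Results.MP_b27926_lc.Minimal
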